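import Mathlib
import Pool.Agent.W946.KS.UBSK
import Pool.Agent.W23.PP.Defs

/-! PP-UBSP: an upper bound sieve of dimension `2k` for two functions. -/

set_option autoImplicit false

namespace Pool.Agent.W899.PP

open Finset
open Pool.Agent.H373R2.T7
open Pool.Agent.W366.PL (sol sol_uniq)
open Pool.Agent.W23.PL Pool.Agent.W23.DC
open Pool.Agent.W23.KT
open Pool.Agent.W946.KS (mem_P1 k_bound a1 a2 a3)
open Pool.Agent.W23.PP

theorem per_dvd {φ : ℤ → ℤ} (hφ : Per φ) {l x y : ℤ} (h : l ∣ x - y) : l ∣ φ x ↔ l ∣ φ y := by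
  have h1 : l ∣ φ x - φ y := h.trans (hφ x y)
  exact dvd_iff_dvd_of_dvd_sub h1

/-- the sieving conditions -/
def Qp (P P' : Finset ℕ) (φ0 φ : ℤ → ℤ) (m : ℕ) (c : ℤ) (l n : ℕ) : Prop :=
  ¬ l ∣ m ∧ ((l ∈ P ∧ (l : ℤ) ∣ φ0 (c + m * n)) ∨ (l ∈ P' ∧ (l : ℤ) ∣ φ (c + m * n)))

theorem Qper {φ : ℤ → ℤ} (hφ : Per φ) (c : ℤ) (m p n : ℕ) :
    (p : ℤ) ∣ φ (c + m * n) ↔ (p : ℤ) ∣ φ (c + m * ((n % p : ℕ) : ℤ)) := by
  apply per_dvd hφ
  have h1 : (n : ℤ) = p * ((n / p : ℕ) : ℤ) + ((n % p : ℕ) : ℤ) := by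
    exact_mod_cast (Nat.div_add_mod n p).symm
  refine ⟨m * ((n / p : ℕ) : ℤ), ?_⟩
  conv_lhs => rw [h1]
  ring

open Classical in
/-- the number of solutions in `j` of `l ∣ φ (c + m j)` -/
theorem cnt {φ : ℤ → ℤ} (hφ : Per φ) {l m : ℕ} (hl : l.Prime) (hlm : ¬ l ∣ m) (c : ℤ) :
    ((range l).filter (fun n : ℕ => (l : ℤ) ∣ φ (c + m * n))).card = nr φ l := by
  have hl0 : (0 : ℤ) < l := by exact_mod_cast hl.pos
  unfold nr
  apply le_antisymm
  · refine card_le_card_of_injOn (fun n => ((c + m * (n : ℕ)) % l).toNat) ?_ ?_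
    · intro n hn
      rw [mem_coe, mem_filter, mem_range] at hn ⊢
      have h1 := Int.emod_lt_of_pos (c + m * (n : ℕ)) hl0
      have h2 := Int.emod_nonneg (c + m * (n : ℕ)) hl0.ne'
      refine ⟨by show ((c + m * (n : ℤ)) % l).toNat < l; omega, ?_⟩
      show (l : ℤ) ∣ φ (((c + m * (n : ℤ)) % l).toNat : ℕ)
      rw [Int.toNat_of_nonneg h2]
      refine (per_dvd hφ ?_).mp hn.2
      exact Int.dvd_self_sub_emod
    · intro n hn n' hn' h
      rw [mem_coe, mem_filter] at hn hn'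
      simp only at h
      have h2 := Int.emod_nonneg (c + m * (n : ℕ)) hl0.ne'
      have h2' := Int.emod_nonneg (c + m * (n' : ℕ)) hl0.ne'
      have h3 : (c + m * (n : ℕ)) % l = (c + m * (n' : ℕ)) % l := by omega
      refine sol_uniq hl hlm (c - (c + m * (n : ℕ))) hn.1 hn'.1 ?_ ?_
      · have : c - (c + m * (n : ℕ)) + m * n = 0 := by ring
        rw [this]; exact dvd_zero _
      · have h4 : (l : ℤ) ∣ (c + m * (n' : ℕ)) - (c + m * (n : ℕ)) :=
          Int.ModEq.dvd (show (c + m * (n : ℕ)) ≡ (c + m * (n' : ℕ)) [ZMOD l] from h3)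
        have : c - (c + m * (n : ℕ)) + m * n' = (c + m * (n' : ℕ)) - (c + m * (n : ℕ)) := by ring
        rw [this]; exact h4
  · choose f hf using fun a : ℕ => sol hl hlm (c - a)
    refine card_le_card_of_injOn f ?_ ?_
    · intro a ha
      rw [mem_coe, mem_filter] at ha ⊢
      refine ⟨(hf a).1, (per_dvd hφ ?_).mp ha.2⟩
      have h1 := (hf a).2
      have : (a : ℤ) - (c + m * (f a : ℕ)) = -(c - a + m * (f a : ℕ)) := by ring
      rw [this]
      exact h1.neg_right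
    · intro a ha a' ha' h
      rw [mem_coe, mem_filter, mem_range] at ha ha'
      have h1 := (hf a).2
      have h2 := (hf a').2
      rw [← h] at h2
      have h3 : (l : ℤ) ∣ (a : ℤ) - a' := by
        have := dvd_sub h2 h1
        have e : c - a' + m * (f a : ℕ) - (c - a + m * (f a : ℕ)) = (a : ℤ) - a' := by ring
        rwa [e] at this
      have h4 : (a : ℤ) - a' = 0 := Int.eq_zero_of_abs_lt_dvd h3 (by rw [abs_lt]; constructor <;> omega)
      omega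

theorem nuB_mono_card {Q : ℕ → ℕ → Prop} {l : ℕ} {S : Finset ℕ}
    (h : ∀ n ∈ S, n ∈ range l ∧ Q l n) : S.card ≤ nuB Q l := by
  classical
  unfold nuB
  refine card_le_card ?_
  intro n hn
  exact mem_filter.mpr (h n hn)

theorem nu_ge0 {P P' : Finset ℕ} {φ0 φ : ℤ → ℤ} (h0 : Per φ0) {m : ℕ} {c : ℤ} {l : ℕ}
    (hl : l.Prime) (hlm : ¬ l ∣ m) (hP : l ∈ P) : nr φ0 l ≤ nuB (Qp P P' φ0 φ m c) l := by
  classical
  rw [← cnt h0 hl hlm c]
  apply nuB_mono_card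
  intro n hn
  rw [mem_filter] at hn
  exact ⟨hn.1, hlm, Or.inl ⟨hP, hn.2⟩⟩

theorem nu_ge1 {P P' : Finset ℕ} {φ0 φ : ℤ → ℤ} (h1 : Per φ) {m : ℕ} {c : ℤ} {l : ℕ}
    (hl : l.Prime) (hlm : ¬ l ∣ m) (hP : l ∈ P') : nr φ l ≤ nuB (Qp P P' φ0 φ m c) l := by
  classical
  rw [← cnt h1 hl hlm c]
  apply nuB_mono_card
  intro n hn
  rw [mem_filter] at hn
  exact ⟨hn.1, hlm, Or.inr ⟨hP, hn.2⟩⟩

theorem nu_ge2 {P P' : Finset ℕ} {φ0 φ : ℤ → ℤ} (h0 : Per φ0) (h1 : Per φ) {m : ℕ} {c : ℤ} {l : ℕ}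
    (hl : l.Prime) (hlm : ¬ l ∣ m) (hP : l ∈ P) (hP' : l ∈ P')
    (hR : ∀ n : ℤ, (l : ℤ) ∣ φ0 n → ¬ (l : ℤ) ∣ φ n) :
    nr φ0 l + nr φ l ≤ nuB (Qp P P' φ0 φ m c) l := by
  classical
  rw [← cnt h0 hl hlm c, ← cnt h1 hl hlm c, ← card_union_of_disjoint]
  · apply nuB_mono_card
    intro n hn
    rw [mem_union, mem_filter, mem_filter] at hn
    rcases hn with hn | hn
    · exact ⟨hn.1, hlm, Or.inl ⟨hP, hn.2⟩⟩
    · exact ⟨hn.1, hlm, Or.inr ⟨hP', hn.2⟩⟩
  · rw [disjoint_left]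
    intro n hn hn'
    rw [mem_filter] at hn hn'
    exact hR _ hn.2 hn'.2

theorem perB_Qp {P P' : Finset ℕ} {φ0 φ : ℤ → ℤ} (h0 : Per φ0) (h1 : Per φ) (m : ℕ) (c : ℤ) {k : ℕ}
    (hk0 : ∀ p : ℕ, p.Prime → nr φ0 p ≤ k) (hk1 : ∀ p : ℕ, p.Prime → nr φ p ≤ k) :
    PerB (Qp P P' φ0 φ m c) (2 * k) := by
  classical
  refine ⟨fun p n => ?_, fun l hl => ?_⟩
  · unfold Qp
    rw [Qper h0 c m p n, Qper h1 c m p n]
  · by_cases hlm : l ∣ m
    · have : nuB (Qp P P' φ0 φ m c) l = 0 := by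
        unfold nuB
        rw [Finset.card_eq_zero, Finset.filter_eq_empty_iff]
        intro n _ hn
        exact hn.1 hlm
      rw [this]; exact Nat.zero_le _
    · have hsub : (range l).filter (fun r => Qp P P' φ0 φ m c l r) ⊆
            (range l).filter (fun n : ℕ => (l : ℤ) ∣ φ0 (c + m * n)) ∪
            (range l).filter (fun n : ℕ => (l : ℤ) ∣ φ (c + m * n)) := by
        intro n hn
        rw [mem_filter] at hn
        rw [mem_union, mem_filter, mem_filter]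
        rcases hn.2.2 with h | h
        · exact Or.inl ⟨hn.1, h.2⟩
        · exact Or.inr ⟨hn.1, h.2⟩
      unfold nuB
      calc _ ≤ _ := by
            refine le_trans (le_of_eq ?_) (card_le_card hsub)
            congr
        _ ≤ _ := card_union_le _ _
        _ ≤ k + k := by
            rw [cnt h0 hl hlm c, cnt h1 hl hlm c]
            exact add_le_add (hk0 l hl) (hk1 l hl)
        _ = 2 * k := by ring

theorem nr_le (φ : ℤ → ℤ) (l : ℕ) : nr φ l ≤ l := by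
  classical
  unfold nr
  exact (card_filter_le _ _).trans (by simp)

theorem rh_nonneg (φ : ℤ → ℤ) (l : ℕ) : 0 ≤ rh φ l := by
  unfold rh; positivity

theorem rh_le_one (φ : ℤ → ℤ) (l : ℕ) : rh φ l ≤ 1 := by
  unfold rh
  have h : (nr φ l : ℝ) ≤ l := by exact_mod_cast nr_le φ l
  exact div_le_one_of_le₀ h (Nat.cast_nonneg l)

open Classical in
theorem point {P P' : Finset ℕ} {φ0 φ : ℤ → ℤ} (h0 : Per φ0) (h1 : Per φ) {m : ℕ} {c : ℤ} {l : ℕ}
    (hl : l.Prime) {R : ℤ} (hR : ∀ n : ℤ, (l : ℤ) ∣ φ0 n → (l : ℤ) ∣ φ n → (l : ℤ) ∣ R)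
    (ha : l ∈ P → rh φ0 l < 1) (hb : l ∈ P' → rh φ l < 1) :
    1 - (nuB (Qp P P' φ0 φ m c) l : ℝ) / l ≤
      (if l ∈ P then (1 - rh φ0 l) else 1) * (if l ∈ P' then (1 - rh φ l) else 1) *
      ((if l ∈ P ∧ l ∣ m then (1 - rh φ0 l)⁻¹ else 1) *
        (if l ∈ P' ∧ (l : ℤ) ∣ R * m then (1 - rh φ l)⁻¹ else 1)) := by
  have hl0 : (0 : ℝ) < l := by exact_mod_cast hl.pos
  have hx0 : 0 < 1 / (l : ℝ) := by positivity
  have hnu : (nuB (Qp P P' φ0 φ m c) l : ℝ) / l = nuB (Qp P P' φ0 φ m c) l * (1 / (l : ℝ)) := by ring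
  have hν0 : 0 ≤ (nuB (Qp P P' φ0 φ m c) l : ℝ) / l := by positivity
  have hA0 := rh_nonneg φ0 l
  have hB0 := rh_nonneg φ l
  by_cases hlm : l ∣ m
  · have hlam : (l : ℤ) ∣ R * m := Dvd.dvd.mul_left (Int.natCast_dvd_natCast.mpr hlm) _
    have e : (if l ∈ P then (1 - rh φ0 l) else 1) * (if l ∈ P' then (1 - rh φ l) else 1) *
      ((if l ∈ P ∧ l ∣ m then (1 - rh φ0 l)⁻¹ else 1) *
        (if l ∈ P' ∧ (l : ℤ) ∣ R * m then (1 - rh φ l)⁻¹ else 1)) = 1 := by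
      by_cases hP : l ∈ P <;> by_cases hP' : l ∈ P'
      · have h2 := ha hP
        have h3 := hb hP'
        have h4 : 1 - rh φ0 l ≠ 0 := by linarith
        have h5 : 1 - rh φ l ≠ 0 := by linarith
        rw [if_pos hP, if_pos hP', if_pos ⟨hP, hlm⟩, if_pos ⟨hP', hlam⟩]
        field_simp
      · have h2 := ha hP
        have h4 : 1 - rh φ0 l ≠ 0 := by linarith
        rw [if_pos hP, if_neg hP', if_pos ⟨hP, hlm⟩, if_neg (fun h => hP' h.1)]
        field_simp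
      · have h3 := hb hP'
        have h5 : 1 - rh φ l ≠ 0 := by linarith
        rw [if_neg hP, if_pos hP', if_neg (fun h => hP h.1), if_pos ⟨hP', hlam⟩]
        field_simp
      · rw [if_neg hP, if_neg hP', if_neg (fun h => hP h.1), if_neg (fun h => hP' h.1)]
        norm_num
    rw [e]
    linarith
  · simp only [hlm, and_false, if_false, one_mul]
    by_cases hP' : l ∈ P'
    · have h3 := hb hP'
      have h5 : 1 - rh φ l ≠ 0 := by linarith
      by_cases hlR : (l : ℤ) ∣ R * m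
      · simp only [hP', hlR, and_self, if_true]
        rw [mul_assoc, mul_inv_cancel₀ h5, mul_one]
        by_cases hP : l ∈ P
        · rw [if_pos hP]
          have h6 : rh φ0 l ≤ (nuB (Qp P P' φ0 φ m c) l : ℝ) / l := by
            unfold rh
            apply div_le_div_of_nonneg_right _ hl0.le
            exact_mod_cast nu_ge0 h0 hl hlm hP
          linarith
        · rw [if_neg hP]; linarith
      · simp only [hP', hlR, and_false, if_true, if_false, mul_one]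
        by_cases hP : l ∈ P
        · rw [if_pos hP]
          have h6 : rh φ0 l + rh φ l ≤ (nuB (Qp P P' φ0 φ m c) l : ℝ) / l := by
            unfold rh
            rw [← add_div]
            apply div_le_div_of_nonneg_right _ hl0.le
            exact_mod_cast nu_ge2 h0 h1 hl hlm hP hP' (fun n hn hn' =>
              hlR (Dvd.dvd.mul_right (hR n hn hn') _))
          have h7 : 0 ≤ rh φ0 l * rh φ l := mul_nonneg hA0 hB0
          linarith
        · rw [if_neg hP, one_mul]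
          have h6 : rh φ l ≤ (nuB (Qp P P' φ0 φ m c) l : ℝ) / l := by
            unfold rh
            apply div_le_div_of_nonneg_right _ hl0.le
            exact_mod_cast nu_ge1 h1 hl hlm hP'
          linarith
    · simp only [hP', false_and, if_false, mul_one]
      by_cases hP : l ∈ P
      · rw [if_pos hP]
        have h6 : rh φ0 l ≤ (nuB (Qp P P' φ0 φ m c) l : ℝ) / l := by
          unfold rh
          apply div_le_div_of_nonneg_right _ hl0.le
          exact_mod_cast nu_ge0 h0 hl hlm hP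
        linarith
      · rw [if_neg hP]; linarith

open Classical in
theorem prod_bound {P P' : Finset ℕ} {φ0 φ : ℤ → ℤ} (h0 : Per φ0) (h1 : Per φ) (m : ℕ) (c : ℤ)
    (Y : ℕ) {R : ℤ} (hR : ∀ (n : ℤ) (l : ℕ), l.Prime → (l : ℤ) ∣ φ0 n → (l : ℤ) ∣ φ n → (l : ℤ) ∣ R)
    (ha : ∀ l ∈ P, rh φ0 l < 1) (hb : ∀ l ∈ P', rh φ l < 1) :
    ∏ l ∈ pz Y, (1 - (nuB (Qp P P' φ0 φ m c) l : ℝ) / l) ≤
        ((∏ l ∈ (pz Y).filter (fun l => l ∈ P), (1 - rh φ0 l)) *
        ∏ l ∈ (pz Y).filter (fun l => l ∈ P'), (1 - rh φ l)) *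
        ((∏ l ∈ (pz Y).filter (fun l => l ∈ P ∧ l ∣ m), (1 - rh φ0 l)⁻¹) *
        ∏ l ∈ (pz Y).filter (fun l => l ∈ P' ∧ (l : ℤ) ∣ R * m), (1 - rh φ l)⁻¹) := by
  have hprime : ∀ l ∈ pz Y, l.Prime := fun l hl => (mem_pz.1 hl).2
  have h2 := Finset.prod_le_prod (s := pz Y) (f := fun l => 1 - (nuB (Qp P P' φ0 φ m c) l : ℝ) / l)
    (g := fun l => (if l ∈ P then (1 - rh φ0 l) else 1) * (if l ∈ P' then (1 - rh φ l) else 1) *
      ((if l ∈ P ∧ l ∣ m then (1 - rh φ0 l)⁻¹ else 1) *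
        (if l ∈ P' ∧ (l : ℤ) ∣ R * m then (1 - rh φ l)⁻¹ else 1))) (fun l hl => by
      have hl0 : (0 : ℝ) < l := by exact_mod_cast (hprime l hl).pos
      have : (nuB (Qp P P' φ0 φ m c) l : ℝ) / l ≤ 1 := by
        rw [div_le_one hl0]; exact_mod_cast nuB_le _ l
      linarith) (fun l hl => point h0 h1 (hprime l hl) (fun n => hR n l (hprime l hl)) (ha l) (hb l))
  refine h2.trans (le_of_eq ?_)
  rw [Finset.prod_mul_distrib, Finset.prod_mul_distrib, Finset.prod_mul_distrib,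
    ← Finset.prod_filter, ← Finset.prod_filter, ← Finset.prod_filter, ← Finset.prod_filter]

open Classical in
theorem count_bound (P P' : Finset ℕ) (φ0 φ : ℤ → ℤ) (r : ℤ) {m : ℕ} (hm : 1 ≤ m)
    (N Y : ℕ) : ∃ c : ℤ,
    ((Icc 1 N).filter (fun n : ℕ => (m : ℤ) ∣ (n : ℤ) - r ∧ xx P (φ0 n) = 1 ∧
      xx P' (φ n) = 1)).card ≤
      ((Icc 1 (N / m + 1)).filter (fun n : ℕ => ∀ l ∈ pz Y, ¬ Qp P P' φ0 φ m c l n)).card := by
  set T := (Icc 1 N).filter (fun n : ℕ => (m : ℤ) ∣ (n : ℤ) - r ∧ xx P (φ0 n) = 1 ∧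
      xx P' (φ n) = 1) with hT
  rcases T.eq_empty_or_nonempty with he | ⟨p₀, hp₀⟩
  · exact ⟨0, by rw [he]; simp⟩
  have hmod : ∀ p ∈ T, p % m = p₀ % m := by
    intro p hp
    have h2 := (mem_filter.mp hp).2.1
    have h3 := (mem_filter.mp hp₀).2.1
    have h5 : (m : ℤ) ∣ (p : ℤ) - p₀ := by
      have := dvd_sub h2 h3
      have e : (p : ℤ) - r - (p₀ - r) = (p : ℤ) - p₀ := by ring
      rwa [e] at this
    have h6 : (p : ℤ) % m = (p₀ : ℤ) % m := Int.emod_eq_emod_iff_emod_sub_eq_zero.mpr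
      (Int.emod_eq_zero_of_dvd h5)
    exact_mod_cast h6
  refine ⟨((p₀ % m : ℕ) : ℤ) - m, ?_⟩
  refine card_le_card_of_injOn (fun p => p / m + 1) ?_ ?_
  · intro p hp
    rw [mem_coe] at hp
    have hpm := hmod p hp
    have hp' := mem_filter.mp hp
    rw [mem_Icc] at hp'
    rw [mem_coe, mem_filter, mem_Icc]
    refine ⟨⟨Nat.le_add_left 1 _, Nat.add_le_add_right (Nat.div_le_div_right hp'.1.2) 1⟩, ?_⟩
    intro l hl hQ
    have hval : ((p₀ % m : ℕ) : ℤ) - m + m * ((p / m + 1 : ℕ) : ℤ) = p := by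
      rw [← hpm]
      have := Nat.div_add_mod p m
      have h4 : (p : ℤ) = m * ((p / m : ℕ) : ℤ) + ((p % m : ℕ) : ℤ) := by exact_mod_cast this.symm
      conv_rhs => rw [h4]
      push_cast
      ring
    obtain ⟨-, hQ⟩ := hQ
    rw [hval] at hQ
    rcases hQ with ⟨hlP, h5⟩ | ⟨hlP, h5⟩
    · have h9 := hp'.2.2.1
      unfold xx at h9
      by_cases h10 : ∀ q ∈ P, ¬ (q : ℤ) ∣ φ0 p
      · exact h10 l hlP h5
      · rw [if_neg h10] at h9
        norm_num at h9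
    · have h9 := hp'.2.2.2
      unfold xx at h9
      by_cases h10 : ∀ q ∈ P', ¬ (q : ℤ) ∣ φ p
      · exact h10 l hlP h5
      · rw [if_neg h10] at h9
        norm_num at h9
  · intro p hp p' hp' h
    rw [mem_coe] at hp hp'
    have h2 := hmod p hp
    rw [← hmod p' hp'] at h2
    have h4 : p / m = p' / m := by
      simp only at h
      omega
    rw [← Nat.div_add_mod p m, ← Nat.div_add_mod p' m, h2, h4]

open Classical in
/-- the primes dividing `m` -/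
theorem m_bound {P : Finset ℕ} {φ0 : ℤ → ℤ} {k m : ℕ} (hk : 1 ≤ k) (hm : 1 ≤ m)
    (hk0 : ∀ p : ℕ, p.Prime → nr φ0 p ≤ k) (ha : ∀ l ∈ P, rh φ0 l < 1) (Y : ℕ) :
    ∏ l ∈ (pz Y).filter (fun l => l ∈ P ∧ l ∣ m), (1 - rh φ0 l)⁻¹ ≤ kw (2 * k) m := by
  have hk1 : (1 : ℝ) ≤ k := by exact_mod_cast hk
  have hfac : ∀ l ∈ (pz Y).filter (fun l => l ∈ P ∧ l ∣ m), 0 ≤ (1 - rh φ0 l)⁻¹ ∧
      (1 - rh φ0 l)⁻¹ ≤ 2 * k := by
    intro l hl
    rw [mem_filter] at hl
    have hlp := (mem_pz.1 hl.1).2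
    have h1 := ha l hl.2.1
    have hl0 : (0 : ℝ) < l := by exact_mod_cast hlp.pos
    have hpos : 0 < 1 - rh φ0 l := by linarith
    refine ⟨inv_nonneg.mpr hpos.le, ?_⟩
    rw [inv_le_iff_one_le_mul₀ hpos]
    have hnr := hk0 l hlp
    have hlt : nr φ0 l < l := by
      unfold rh at h1
      rw [div_lt_one hl0] at h1
      exact_mod_cast h1
    have key : l ≤ 2 * k * (l - nr φ0 l) := by
      rcases le_total (2 * k) l with h | h
      · have h2 : l ≤ 2 * (l - nr φ0 l) := by omega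
        calc l ≤ 2 * (l - nr φ0 l) := h2
          _ ≤ 2 * (k * (l - nr φ0 l)) := by
              apply Nat.mul_le_mul_left
              exact Nat.le_mul_of_pos_left _ hk
          _ = 2 * k * (l - nr φ0 l) := by ring
      · have h2 : 1 ≤ l - nr φ0 l := by omega
        calc l ≤ 2 * k * 1 := by omega
          _ ≤ _ := Nat.mul_le_mul_left _ h2
    have key' : (l : ℝ) ≤ 2 * k * (l - nr φ0 l) := by
      have : (l : ℝ) ≤ ((2 * k * (l - nr φ0 l) : ℕ) : ℝ) := by exact_mod_cast key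
      rw [Nat.cast_mul, Nat.cast_sub hlt.le] at this
      push_cast at this
      exact this
    have e : (2 * (k : ℝ)) * (1 - rh φ0 l) = (2 * k * (l - nr φ0 l)) / l := by
      unfold rh
      field_simp
    rw [e, le_div_iff₀ hl0, one_mul]
    exact key'
  calc ∏ l ∈ (pz Y).filter (fun l => l ∈ P ∧ l ∣ m), (1 - rh φ0 l)⁻¹
      ≤ ∏ l ∈ (pz Y).filter (fun l => l ∈ P ∧ l ∣ m), (2 * k : ℝ) :=
        Finset.prod_le_prod (fun l hl => (hfac l hl).1) (fun l hl => (hfac l hl).2)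
    _ ≤ ∏ l ∈ m.primeFactors, (2 * k : ℝ) := by
        refine Finset.prod_le_prod_of_subset_of_one_le ?_ (fun l _ => by linarith)
          (fun l _ _ => by linarith)
        intro l hl
        rw [mem_filter] at hl
        exact Nat.mem_primeFactors.mpr ⟨(mem_pz.1 hl.1).2, hl.2.2, by omega⟩
    _ = kw (2 * k) m := by
        rw [Finset.prod_const, kw]
        push_cast
        rfl

theorem kw_ge_one {k m : ℕ} (hk : 1 ≤ k) : 1 ≤ kw (2 * k) m := by
  unfold kw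
  apply one_le_pow₀
  have : (1 : ℝ) ≤ k := by exact_mod_cast hk
  push_cast
  linarith

/-- a fixed divisor -/
theorem fixed {φ0 : ℤ → ℤ} (h0 : Per φ0) {l : ℕ} (hl : l.Prime) (h : ¬ rh φ0 l < 1) (n : ℤ) :
    (l : ℤ) ∣ φ0 n := by
  classical
  have hl0 : (0 : ℝ) < l := by exact_mod_cast hl.pos
  have hlz : (0 : ℤ) < l := by exact_mod_cast hl.pos
  push Not at h
  unfold rh at h
  rw [one_le_div hl0] at h
  have h2 : l ≤ nr φ0 l := by exact_mod_cast h
  unfold nr at h2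
  have h3 : (range l).filter (fun a : ℕ => (l : ℤ) ∣ φ0 a) = range l := by
    apply Finset.eq_of_subset_of_card_le (filter_subset _ _)
    rw [card_range]
    refine h2.trans (le_of_eq ?_)
    congr
  have h4 := Int.emod_lt_of_pos n hlz
  have h5 := Int.emod_nonneg n hlz.ne'
  have h6 : (n % l).toNat ∈ (range l).filter (fun a : ℕ => (l : ℤ) ∣ φ0 a) := by
    rw [h3, mem_range]; omega
  rw [mem_filter, Int.toNat_of_nonneg h5] at h6
  refine (per_dvd h0 ?_).mpr h6.2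
  exact Int.dvd_self_sub_emod

theorem mem_P0 {N : ℕ} {ε : ℝ} {l : ℕ} : l ∈ P0 N ε ↔
    l ∈ Icc 1 N ∧ l.Prime ∧ tt N l < ε := by
  unfold P0; rw [mem_filter]

open Classical in
theorem UBSP (hRTP : St_RTP) (hVLBP : St_VLBP) : St_UBSP := by
  intro k M B hk hB ε₁ κ hε₁ hε₁1 hκ hκ1
  obtain ⟨K, x0, hK, hfund⟩ := sys_fund (2 * k) (by omega) 1 one_pos
  obtain ⟨hvA, hvB⟩ := hVLBP k hk
  have hK0 : (0 : ℝ) < K := by exact_mod_cast hK
  have hK1 : (1 : ℝ) ≤ K := by exact_mod_cast hK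
  set ε' := min ε₁ (1 / (4 * K : ℝ)) with hε'
  have hε'0 : 0 < ε' := lt_min hε₁ (by positivity)
  have hε'1 : ε' ≤ 1 := (min_le_left _ _).trans hε₁1
  set κ' := min κ (1 / (4 * K : ℝ)) with hκ'
  have hκ'0 : 0 < κ' := lt_min hκ (by positivity)
  obtain ⟨C1, N1, hC1, h1⟩ := hvA M B (by omega) ε₁ hε₁ hε₁1
  obtain ⟨C2, N2, hC2, h2⟩ := hvA M B (by omega) ε' hε'0 hε'1
  obtain ⟨C3, hC3, hvB'⟩ := hvB κ hκ hκ1
  obtain ⟨N4, h4⟩ := hvB' M κ' hκ'0 (min_le_left _ _)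
  have htend : Filter.Tendsto (fun N : ℕ => (N : ℝ)) Filter.atTop Filter.atTop :=
    tendsto_natCast_atTop_atTop
  have hlogt := Real.tendsto_log_atTop.comp htend
  have e1 : ∀ᶠ N : ℕ in Filter.atTop, 9 ≤ Real.log N := hlogt.eventually_ge_atTop 9
  have e1' : ∀ᶠ N : ℕ in Filter.atTop, 8 * (((M : ℕ) : ℝ) + 1) * (k + 1) ≤ Real.log N :=
    hlogt.eventually_ge_atTop _
  have e1'' : ∀ᶠ N : ℕ in Filter.atTop, 2 * ((k : ℝ) + 1) ≤ Real.log N :=
    hlogt.eventually_ge_atTop _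
  have e2 : ∀ᶠ N : ℕ in Filter.atTop, (x0 : ℝ) + 3 ≤ (N : ℝ) ^ (1 / (8 * K : ℝ)) :=
    ((tendsto_rpow_atTop (by positivity)).comp htend).eventually_ge_atTop _
  have e4 : ∀ᶠ N : ℕ in Filter.atTop, Real.log N ^ (2 * (k + 1)) ≤ (N : ℝ) ^ (1 / 10 : ℝ) := by
    have h := (isLittleO_log_rpow_rpow_atTop ((2 * (k + 1) : ℕ) : ℝ)
      (show (0 : ℝ) < 1 / 10 by norm_num)).comp_tendsto htend
    filter_upwards [h.eventuallyLE, e1] with N hN h9
    simp only [Function.comp_apply, Real.rpow_natCast, Real.norm_eq_abs] at hN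
    rw [abs_of_nonneg (by positivity : (0 : ℝ) ≤ (N : ℝ) ^ (1 / 10 : ℝ)),
      abs_of_nonneg (pow_nonneg (by linarith) _)] at hN
    exact hN
  obtain ⟨N3, h3⟩ := Filter.eventually_atTop.mp
    (e1.and (e1'.and (e1''.and (e2.and e4))))
  set D0 : ℝ := C3 * (1 / κ') ^ k with hD0
  have hD00 : 0 < D0 := by positivity
  set C' : ℝ := 8 * D0 * C2 with hC'
  have hC'0 : 0 < C' := by positivity
  refine ⟨C' + 1, max N1 (max N2 (max N3 N4)), by positivity, ?_⟩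
  intro N hN φ0 φ hS0 hS hCp m hm hmN r
  have hN1 : N1 ≤ N := (le_max_left _ _).trans hN
  have hN2 : N2 ≤ N := ((le_max_left _ _).trans (le_max_right _ _)).trans hN
  have hN3 : N3 ≤ N := ((le_max_left _ _).trans ((le_max_right _ _).trans (le_max_right _ _))).trans hN
  have hN4 : N4 ≤ N := ((le_max_right _ _).trans ((le_max_right _ _).trans (le_max_right _ _))).trans hN
  obtain ⟨hL9, hLk, hLk2, hx0, hlogk⟩ := h3 N hN3
  obtain ⟨hVF, -, hVlow, hV1⟩ := h1 N hN1 φ hS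
  obtain ⟨-, hVup, -, -⟩ := h2 N hN2 φ hS
  obtain ⟨-, hWup, hW0, hWlow⟩ := h4 N hN4 φ0 hS0
  obtain ⟨hk0, -⟩ := hRTP.2.2 k M N φ0 hS0
  obtain ⟨hk1, -⟩ := hRTP.2.2 k M N φ hS
  obtain ⟨R, hR0, hRN, hR⟩ := hCp
  set L := Real.log N with hLd
  have hL0 : 0 < L := by linarith
  have hN0 : (0 : ℝ) < N := by
    by_contra h
    have h2 : (N : ℝ) = 0 := le_antisymm (not_lt.mp h) (Nat.cast_nonneg N)
    rw [hLd, h2, Real.log_zero] at hL9
    linarith
  have hN1' : (1 : ℝ) ≤ N := by exact_mod_cast (Nat.cast_pos.mp hN0 : 0 < N)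
  have hm0 : (0 : ℝ) < m := by exact_mod_cast hm
  have hm1 : (1 : ℝ) ≤ m := by exact_mod_cast hm
  have hmN' : (m : ℝ) ≤ N := hmN.trans (by
    calc (N : ℝ) ^ (1 / 20 : ℝ) ≤ (N : ℝ) ^ (1 : ℝ) :=
          Real.rpow_le_rpow_of_exponent_le hN1' (by norm_num)
      _ = N := Real.rpow_one _)
  have hkw : 1 ≤ kw (2 * k) m := kw_ge_one hk
  set V := VP φ (P1 N B ε₁) with hVdef
  set W := VP φ0 (P0 N κ) with hWdef
  have hVlow' : 1 / L ^ (k + 1) ≤ V := hVlow.trans hVF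
  have hVpos : 0 < V := lt_of_lt_of_le (by positivity) hVlow'
  set T := (Icc 1 N).filter (fun n : ℕ => (m : ℤ) ∣ (n : ℤ) - r ∧ xx (P0 N κ) (φ0 n) = 1 ∧
      xx (P1 N B ε₁) (φ n) = 1) with hT
  by_cases hfix : ∃ l ∈ P0 N κ, ¬ rh φ0 l < 1
  · -- the set is empty
    obtain ⟨l, hl, hl1⟩ := hfix
    have hlp := (mem_P0.1 hl).2.1
    have hTe : T = ∅ := by
      rw [Finset.eq_empty_iff_forall_notMem]
      intro n hn
      have h9 := (mem_filter.mp hn).2.2.1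
      unfold xx at h9
      by_cases h10 : ∀ q ∈ P0 N κ, ¬ (q : ℤ) ∣ φ0 n
      · exact h10 l hl (fixed hS0.per hlp hl1 n)
      · rw [if_neg h10] at h9
        norm_num at h9
    rw [hTe, Finset.card_empty, Nat.cast_zero]
    positivity
  push Not at hfix
  have hWpos : 0 < W := by
    rw [hWdef]
    unfold VP
    exact prod_pos fun l hl => by linarith [hfix l hl]
  have hWlow' := hWlow hWpos
  -- the level
  set t := (N : ℝ) ^ (1 / (8 * K : ℝ)) with ht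
  have ht3 : 3 ≤ t := by
    have : (0 : ℝ) ≤ x0 := Nat.cast_nonneg _
    linarith
  have htsq : (N : ℝ) ^ (1 / (4 * K : ℝ)) = t ^ 2 := by
    rw [ht, ← Real.rpow_natCast, ← Real.rpow_mul hN0.le]
    congr 1
    push_cast
    field_simp
    norm_num
  set Y : ℕ := ⌊(N : ℝ) ^ (1 / (4 * K : ℝ))⌋₊ with hY
  have hYle : (Y : ℝ) ≤ (N : ℝ) ^ (1 / (4 * K : ℝ)) := Nat.floor_le (by positivity)
  have hYge : t ≤ Y := by
    have h4 : (N : ℝ) ^ (1 / (4 * K : ℝ)) < Y + 1 := Nat.lt_floor_add_one _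
    rw [htsq] at h4
    exact a1 h4 ht3
  have hYx0 : x0 ≤ Y := by
    have : (x0 : ℝ) ≤ Y := by linarith
    exact_mod_cast this
  have hYpow : (Y : ℝ) ^ K ≤ (N : ℝ) ^ (1 / 4 : ℝ) := by
    calc (Y : ℝ) ^ K ≤ ((N : ℝ) ^ (1 / (4 * K : ℝ))) ^ K := pow_le_pow_left₀ (Nat.cast_nonneg _) hYle K
      _ = (N : ℝ) ^ (1 / 4 : ℝ) := by
        rw [← Real.rpow_natCast, ← Real.rpow_mul hN0.le]
        congr 1
        field_simp
  have hN14 : (1 : ℝ) ≤ (N : ℝ) ^ (1 / 4 : ℝ) := Real.one_le_rpow hN1' (by norm_num)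
  have hsqrt : √((Y ^ K : ℕ) : ℝ) ≤ (N : ℝ) ^ (1 / 4 : ℝ) := by
    rw [Nat.cast_pow]
    refine (Real.sqrt_le_sqrt hYpow).trans ?_
    rw [Real.sqrt_le_left (by positivity)]
    exact a2 hN14
  -- the sieve
  obtain ⟨c, hcount⟩ := count_bound (P0 N κ) (P1 N B ε₁) φ0 φ r hm N Y
  set X := N / m + 1 with hX
  set Q := Qp (P0 N κ) (P1 N B ε₁) φ0 φ m c with hQ
  have hPlow : ∀ l ∈ P1 N B ε₁, Real.log N ^ 2 ≤ (l : ℝ) := by
    intro l hl
    refine le_trans ?_ (mem_P1.1 hl).2.2.1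
    exact pow_le_pow_right₀ (by linarith) hB
  have hLsq : 2 * ((k : ℝ) + 1) ≤ L ^ 2 := a3 hLk2 hL9
  have hkP : ∀ l ∈ P1 N B ε₁, 2 * (k : ℝ) ≤ l := by
    intro l hl
    have := hPlow l hl
    rw [← hLd] at this
    linarith
  have hrk : ∀ l ∈ P1 N B ε₁, rh φ l ≤ (k : ℝ) / l ∧ (k : ℝ) / l ≤ 1 / 2 := by
    intro l hl
    have hlp := (mem_P1.1 hl).2.1
    have hl0 : (0 : ℝ) < l := by exact_mod_cast hlp.pos
    have h4 := hkP l hl
    constructor
    · unfold rh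
      apply div_le_div_of_nonneg_right _ hl0.le
      exact_mod_cast hk1 l hlp
    · rw [div_le_div_iff₀ hl0 (by norm_num)]
      linarith
  have hper := perB_Qp (P := P0 N κ) (P' := P1 N B ε₁) hS0.per hS.per m c hk0 hk1
  have hf := hfund (Y ^ K) Y hYx0 le_rfl Q hper X
  set Pr := ∏ p ∈ pz Y, (1 - (nuB Q p : ℝ) / p) with hPr
  have hcount' : (T.card : ℝ) ≤ (((Icc 1 X).filter (fun n : ℕ => ∀ l ∈ pz Y,
        ¬ Q l n)).card : ℝ) := by
    exact_mod_cast hcount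
  have hf' := (abs_le.mp hf).2
  have hPr0 : 0 ≤ Pr := prod_nonneg fun p hp => by
    have hl0 : (0 : ℝ) < p := by exact_mod_cast (mem_pz.1 hp).2.pos
    have : (nuB Q p : ℝ) / p ≤ 1 := by
      rw [div_le_one hl0]; exact_mod_cast nuB_le _ p
    linarith
  -- the product
  have hb1 : ∀ l ∈ P1 N B ε₁, rh φ l < 1 := by
    intro l hl
    have := hrk l hl
    linarith [this.1, this.2]
  have hpb := prod_bound (P := P0 N κ) (P' := P1 N B ε₁) hS0.per hS.per m c Y hR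
    (fun l hl => hfix l hl) hb1
  have hmb := m_bound (P := P0 N κ) hk hm hk0 (fun l hl => hfix l hl) Y
  have hRb : ∏ l ∈ (pz Y).filter (fun l => l ∈ P1 N B ε₁ ∧ (l : ℤ) ∣ R * m), (1 - rh φ l)⁻¹ ≤ 2 := by
    refine le_trans ?_ (k_bound (k := k) (P1 N B ε₁) hm hR0 (N := N) (E := M) hLk hLsq hPlow hRN hmN' Y)
    refine Finset.prod_le_prod (fun l hl => ?_) (fun l hl => ?_)
    · rw [mem_filter] at hl
      have := hb1 l hl.2.1
      exact inv_nonneg.mpr (by linarith)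
    · rw [mem_filter] at hl
      have h5 := hrk l hl.2.1
      have hlp := (mem_pz.1 hl.1).2
      have hl2 : (2 : ℝ) ≤ l := by exact_mod_cast hlp.two_le
      have hx : 1 / (l : ℝ) ≤ 1 / 2 := one_div_le_one_div_of_le (by norm_num) hl2
      have hx0 : 0 < 1 / (l : ℝ) := by positivity
      have h6 : 0 < (1 - (k : ℝ) / l) * (1 - 1 / (l : ℝ)) := mul_pos (by linarith) (by linarith)
      apply inv_anti₀ h6
      calc (1 - (k : ℝ) / l) * (1 - 1 / (l : ℝ)) ≤ (1 - (k : ℝ) / l) * 1 :=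
            mul_le_mul_of_nonneg_left (by linarith) (by linarith)
        _ ≤ 1 - rh φ l := by linarith
  have hYmem : ∀ l : ℕ, l.Prime → tt N l < 1 / (4 * K) → l ∈ pz Y := by
    intro l hlp hlt
    rw [mem_pz]
    refine ⟨?_, hlp⟩
    have hl0 : (0 : ℝ) < l := by exact_mod_cast hlp.pos
    have h5 : Real.log l < 1 / (4 * K) * L := by
      have h6 : Real.log l / L < 1 / (4 * K) := hlt
      rwa [div_lt_iff₀ hL0] at h6
    have h7 : (l : ℝ) ≤ (N : ℝ) ^ (1 / (4 * K : ℝ)) := by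
      rw [← Real.log_le_log_iff hl0 (by positivity), Real.log_rpow hN0]
      exact h5.le
    exact Nat.le_floor h7
  have hsub0 : P0 N κ' ⊆ (pz Y).filter (fun l => l ∈ P0 N κ) := by
    intro l hl
    obtain ⟨hl1, hlp, hlt⟩ := mem_P0.1 hl
    rw [mem_filter]
    exact ⟨hYmem l hlp (lt_of_lt_of_le hlt (min_le_right _ _)),
      mem_P0.2 ⟨hl1, hlp, lt_of_lt_of_le hlt (min_le_left _ _)⟩⟩
  have hsub1 : P1 N B ε' ⊆ (pz Y).filter (fun l => l ∈ P1 N B ε₁) := by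
    intro l hl
    obtain ⟨hl1, hlp, hlB, hlt⟩ := mem_P1.1 hl
    rw [mem_filter]
    exact ⟨hYmem l hlp (lt_of_lt_of_le hlt (min_le_right _ _)),
      mem_P1.2 ⟨hl1, hlp, hlB, lt_of_lt_of_le hlt (min_le_left _ _)⟩⟩
  have hA : ∏ l ∈ (pz Y).filter (fun l => l ∈ P0 N κ), (1 - rh φ0 l) ≤ D0 * W := by
    refine le_trans ?_ hWup
    unfold VP
    refine Finset.prod_le_prod_of_subset_of_le_one hsub0 (fun l hl => ?_) (fun l hl _ => ?_)
    · linarith [rh_le_one φ0 l]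
    · linarith [rh_nonneg φ0 l]
  have hBb : ∏ l ∈ (pz Y).filter (fun l => l ∈ P1 N B ε₁), (1 - rh φ l) ≤ C2 * V := by
    have h5 : VP φ (P1 N B ε') ≤ C2 * V :=
      hVup.trans (mul_le_mul_of_nonneg_left hVF hC2.le)
    refine le_trans ?_ h5
    unfold VP
    refine Finset.prod_le_prod_of_subset_of_le_one hsub1 (fun l hl => ?_) (fun l hl _ => ?_)
    · linarith [rh_le_one φ l]
    · linarith [rh_nonneg φ l]
  have hprod : Pr ≤ (D0 * W * (C2 * V)) * (kw (2 * k) m * 2) := by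
    refine hpb.trans ?_
    have p1 : 0 ≤ ∏ l ∈ (pz Y).filter (fun l => l ∈ P0 N κ), (1 - rh φ0 l) :=
      prod_nonneg fun l _ => by linarith [rh_le_one φ0 l]
    have p2 : 0 ≤ ∏ l ∈ (pz Y).filter (fun l => l ∈ P1 N B ε₁), (1 - rh φ l) :=
      prod_nonneg fun l _ => by linarith [rh_le_one φ l]
    have p3 : 0 ≤ ∏ l ∈ (pz Y).filter (fun l => l ∈ P0 N κ ∧ l ∣ m), (1 - rh φ0 l)⁻¹ :=
      prod_nonneg fun l _ => inv_nonneg.mpr (by linarith [rh_le_one φ0 l])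
    have p4 : 0 ≤ ∏ l ∈ (pz Y).filter (fun l => l ∈ P1 N B ε₁ ∧ (l : ℤ) ∣ R * m),
        (1 - rh φ l)⁻¹ :=
      prod_nonneg fun l _ => inv_nonneg.mpr (by linarith [rh_le_one φ l])
    refine mul_le_mul (mul_le_mul hA hBb p2 (by positivity)) (mul_le_mul hmb hRb p4 (by linarith))
      (mul_nonneg p3 p4) (by positivity)
  have hXle : (X : ℝ) ≤ 2 * (N / m) := by
    have h10 : ((N / m : ℕ) : ℝ) ≤ (N : ℝ) / m := Nat.cast_div_le
    have h11 : (1 : ℝ) ≤ N / m := by rwa [one_le_div hm0]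
    rw [hX]
    push_cast
    linarith
  set kk := kw (2 * k) m with hkk
  have hmain : 2 * (X * Pr) ≤ C' * kk * (N / m) * (W * V) := by
    calc 2 * (X * Pr) ≤ 2 * ((2 * (N / m)) * ((D0 * W * (C2 * V)) * (kk * 2))) := by
          refine mul_le_mul_of_nonneg_left ?_ (by norm_num)
          exact mul_le_mul hXle hprod hPr0 (by positivity)
      _ = C' * kk * (N / m) * (W * V) := by
          rw [hC']
          ring
  -- the error
  have herr : (N : ℝ) ^ (1 / 4 : ℝ) ≤ kk * (N / m) * (W * V) := by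
    have h5 : (1 / L ^ (k + 1)) * (1 / L ^ (k + 1)) ≤ W * V :=
      mul_le_mul hWlow' hVlow' (by positivity) hWpos.le
    have h6 : (N : ℝ) ^ (19 / 20 : ℝ) ≤ N / m := by
      rw [le_div_iff₀ hm0]
      calc (N : ℝ) ^ (19 / 20 : ℝ) * m ≤ (N : ℝ) ^ (19 / 20 : ℝ) * (N : ℝ) ^ (1 / 20 : ℝ) :=
            mul_le_mul_of_nonneg_left hmN (by positivity)
        _ = N := by rw [← Real.rpow_add hN0]; norm_num
    have h7 : (1 / L ^ (k + 1)) * (1 / L ^ (k + 1)) = 1 / L ^ (2 * (k + 1)) := by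
      rw [div_mul_div_comm, one_mul, ← pow_add, two_mul]
    have hLp : 0 < L ^ (2 * (k + 1)) := by positivity
    calc (N : ℝ) ^ (1 / 4 : ℝ) ≤ (N : ℝ) ^ (17 / 20 : ℝ) :=
          Real.rpow_le_rpow_of_exponent_le hN1' (by norm_num)
      _ ≤ (N : ℝ) ^ (19 / 20 : ℝ) * (1 / L ^ (2 * (k + 1))) := by
          rw [mul_one_div, le_div_iff₀ hLp]
          calc (N : ℝ) ^ (17 / 20 : ℝ) * L ^ (2 * (k + 1)) ≤
                (N : ℝ) ^ (17 / 20 : ℝ) * (N : ℝ) ^ (1 / 10 : ℝ) :=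
                mul_le_mul_of_nonneg_left hlogk (by positivity)
            _ = (N : ℝ) ^ (19 / 20 : ℝ) := by rw [← Real.rpow_add hN0]; norm_num
      _ ≤ (N / m) * (W * V) := by
          rw [← h7]
          exact mul_le_mul h6 h5 (by positivity) (by positivity)
      _ ≤ kk * (N / m) * (W * V) := by
          rw [mul_assoc kk]
          exact le_mul_of_one_le_left (by positivity) hkw
  have hfin : (C' + 1) * kk * (N / m) * (W * V) = C' * kk * (N / m) * (W * V) +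
      kk * (N / m) * (W * V) := by ring
  rw [hfin]
  linarith

end Pool.Agent.W899.PP
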